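import Mathlib
import Pool.Agent.H74.Final

namespace Pool.Agent.Results.MP_83e7a5_an.GammaB

/-- `γ_B = 1`: the supremum of the rate gain of adaptive randomized over non-adaptive deterministic
algorithms, over all continuous linear problems between real or complex Banach spaces on nonempty
convex (not necessarily symmetric) classes, equals `1`. -/
theorem result : Pool.Agent.MP_83e7a5.gammaB = 1 :=
  Pool.Agent.H74.gammaB_eq

end Pool.Agent.Results.MP_83e7a5_an.GammaB
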