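import Mathlib
import Pool.Agent.H74.Final

namespace Pool.Agent.Results.MP_83e7a5_an.GammaH

/-- `γ_H = 1/2`: the supremum of the rate gain of adaptive randomized over non-adaptive deterministic
algorithms, over all continuous linear problems from real or complex Banach spaces to Hilbert spaces
on nonempty convex (not necessarily symmetric) classes, equals `1/2`. -/
theorem result : Pool.Agent.MP_83e7a5.gammaH = ((1 / 2 : ℝ) : EReal) :=
  Pool.Agent.H74.gammaH_eq

end Pool.Agent.Results.MP_83e7a5_an.GammaH
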